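import Pool.Agent.Helper1.MF.Main

/-!
# MP_957610_lc: assigned flat-foldability of rectangular grid crease patterns is NP-hard

An instance consists of `m`, `n` and a mountain-valley assignment of all crease edges of the
`m × n` grid. `Inst.FlatFoldable` is the geometric definition: a map of the paper into the plane which
is isometric on the unit squares and reflects across every crease edge, together with an order of
the overlapping squares which respects the assignment and in which the paper does not cross itself.

Every language in NP is reducible to flat-foldability by a function which is computable in
polynomial time on a Turing machine (Karp reduction). The instances are encoded with `m`, `n` in unary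
and all labels, so that their length is of the order `m n`.
-/

set_option autoImplicit false

namespace Pool.Agent.Results.MP_957610_lc.NPHard

open Pool.Agent.Helper81.MFD

/-- For every language `L` in NP there is a polynomial time computable map `f` from words to
instances (grid crease patterns with a mountain-valley assignment) such that `w ∈ L` if and only if
`f w` is flat-foldable. -/
theorem result (L : Set (List Bool)) (hL : Helper68.NP.InNP L) :
    ∃ f : List Bool → Inst,
      Nonempty (Turing.TM2ComputableInPolyTime (id : List Bool → List Bool) encodeInst f) ∧
      ∀ w, w ∈ L ↔ (f w).FlatFoldable :=
  Pool.Agent.Helper1.MF.np_hard L hL

end Pool.Agent.Results.MP_957610_lc.NPHard
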